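import Pool.Agent.P.MP_119182_lc.LP.Iface

/-! Links with a positive gap: values carried along threads, and the steps of the bound. -/

set_option autoImplicit false

namespace Pool.Agent.P.MP_119182_lc.LT

open Finset
open scoped Classical
open NU (Run mr)
open LP (on up low ON)

/-- `val t v` is the value of the token that the ancestor `v` shows at time `t`. Before time
`t` the node `h` carries the value `car t h` and the pending gap `gp t h` for its right token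
(if `sd t h`) or for its left token. -/
structure Dat where
  val : ℕ → ℤ → ℕ
  car : ℕ → ℤ → ℕ
  gp : ℕ → ℤ → ℕ
  sd : ℕ → ℤ → Prop

/-- The mirrored data. -/
def Dat.mir (w : Dat) : Dat where
  val := fun t v => w.val t (mr v)
  car := fun t v => w.car t (mr v)
  gp := fun t v => w.gp t (mr v)
  sd := fun t v => ¬ w.sd t (mr v)

section
variable (d : Run)

/-- The lower node of the link with upper node `u`. -/
noncomputable def lw (t : ℕ) (u : ℤ) : ℤ := if d.x t < u then d.lp (t + 1) u else d.rp (t + 1) u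

/-- The other node of the link of `v`. -/
noncomputable def mate (t : ℕ) (v : ℤ) : ℤ :=
  if up d t v then lw d t v else if d.x t < v then d.rp t v else d.lp t v

/-- The node `h` is neither accessed nor touched at the times in `[a, b)`. -/
def frz (a b : ℕ) (h : ℤ) : Prop := ∀ T, a ≤ T → T < b → d.x T ≠ h ∧ ¬ on d T h

/-- No access lies strictly between `a` and `b` at the times in `[r, s)`. -/
def clr (a b : ℤ) (r s : ℕ) : Prop := ∀ T, r ≤ T → T < s → ¬ (a < d.x T ∧ d.x T < b)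

/-- Time `s` is the first time after `r` with an access strictly between `a` and `b`. -/
def fst (a b : ℤ) (r s : ℕ) : Prop := r < s ∧ a < d.x s ∧ d.x s < b ∧ clr d a b (r + 1) s

/-- The holder at time `r` of the token that `v` holds at time `s`. -/
noncomputable def hd (s : ℕ) (v : ℤ) : ℕ → ℤ
  | 0 => v
  | r + 1 => if s ≤ r ∧ up d r (hd s v r) then lw d r (hd s v r) else hd s v r

/-- The visits between `s` and `t`. -/
noncomputable def vis (s : ℕ) (v : ℤ) (t : ℕ) : Finset ℕ :=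
  (Icc s t).filter fun r => on d r (hd d s v r)

/-- The hypothesis on the values: after a tie the upper node shows another value. -/
def Tie (val : ℕ → ℤ → ℕ) : Prop :=
  ∀ s t u, up d s u → s < t → t < d.m → frz d (s + 1) t u → on d t u → 1 ≤ val s u →
    val s (lw d s u) = val s u → val t u ≠ val s u

variable (w : Dat)

/-- The token shown is the token carried. -/
def cont (t : ℕ) (h : ℤ) : Prop := (d.x t < h ↔ w.sd t h)

/-- The carried value of the token shown. -/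
noncomputable def c0 (t : ℕ) (h : ℤ) : ℕ := if cont d w t h then w.car t h else 0

/-- The pending gap of the token shown; it is cancelled by a drop. -/
noncomputable def g0 (t : ℕ) (h : ℤ) : ℕ :=
  if cont d w t h ∧ w.car t h ≤ w.val t h then w.gp t h else 0

/-- The gap of the link with upper node `u`. -/
noncomputable def gap (t : ℕ) (u : ℤ) : ℕ := min (w.val t (lw d t u)) (w.val t u)

/-- The token of `v` is the low token of a link. -/
def lo (t : ℕ) (v : ℤ) : Prop :=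
  (up d t v ∧ w.val t (lw d t v) ≤ w.val t v) ∨ ∃ u, low d t v u ∧ w.val t u < w.val t v

/-- The rules for the carried data. -/
structure Sy : Prop where
  ok : d.OK
  tie : Tie d w.val
  zero : ∀ h, w.car 0 h = 0 ∧ w.gp 0 h = 0
  acc : ∀ t < d.m, w.car (t + 1) (d.x t) = 0 ∧ w.gp (t + 1) (d.x t) = 0
  off : ∀ t < d.m, ∀ h, h ≠ d.x t → ¬ on d t h →
    w.car (t + 1) h = w.car t h ∧ w.gp (t + 1) h = w.gp t h ∧ (w.sd (t + 1) h ↔ w.sd t h)
  upp : ∀ t u, up d t u → w.car (t + 1) u = max (w.val t (lw d t u)) (w.val t u) ∧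
    w.gp (t + 1) u = gap d w t u ∧
    (w.sd (t + 1) u ↔ (d.x t < u ↔ w.val t (lw d t u) ≤ w.val t u))
  lwr : ∀ t p u, low d t p u → w.car (t + 1) p = gap d w t u ∧
    w.gp (t + 1) p = (if w.val t p ≤ w.val t u then g0 d w t p else g0 d w t u) ∧
    (w.sd (t + 1) p ↔ d.x t < p)
  kep : ∀ t < d.m, ∀ h, on d t h → ¬ up d t h → (∀ u, ¬ low d t h u) →
    w.car (t + 1) h = w.val t h ∧ w.gp (t + 1) h = g0 d w t h ∧ (w.sd (t + 1) h ↔ d.x t < h)

/-- The right token of `v` at time `s` is only seen from the left and is first low at `t`. -/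
def seg (s : ℕ) (v : ℤ) (t : ℕ) : Prop :=
  s ≤ t ∧ t < d.m ∧ on d s v ∧
    (∀ r, s ≤ r → r ≤ t → d.x r ≠ hd d s v r ∧ (on d r (hd d s v r) → d.x r < hd d s v r)) ∧
    (∀ r, s ≤ r → r < t → ¬ lo d w r (hd d s v r)) ∧ lo d w t (hd d s v t)

/-- A segment with value at least `k` at all visits. -/
def sol (k s : ℕ) (v : ℤ) (t : ℕ) : Prop :=
  seg d w s v t ∧ ∀ r ∈ vis d s v t, k ≤ w.val r (hd d s v r)

/-- The node `u` was the upper node of a link of gap at least `j` and is first touched at `ρ`. -/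
def org (j ρ : ℕ) (u : ℤ) : Prop :=
  ρ < d.m ∧ on d ρ u ∧ ∃ s < ρ, up d s u ∧ frz d (s + 1) ρ u ∧ j ≤ gap d w s u

/-- A demand of scale `k`. -/
def dem (k ρ : ℕ) (u : ℤ) (t : ℕ) : Prop :=
  sol d w k ρ u t ∧ org d w (k - 1) ρ u ∧ w.val t (mate d t (hd d ρ u t)) < k

/-- A rise through `k`. -/
def rise (k r : ℕ) (h : ℤ) : Prop := r < d.m ∧ on d r h ∧ c0 d w r h < k ∧ k ≤ w.val r h

/-- A drop through `k`. -/
def drop (k r : ℕ) (h : ℤ) : Prop :=
  r < d.m ∧ k ≤ w.car r h ∧ (h = d.x r ∨ (on d r h ∧ ¬ (cont d w r h ∧ k ≤ w.val r h)))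

/-- An event of scale `k`. -/
def ev (k r : ℕ) (h : ℤ) : Prop := rise d w k r h ∨ drop d w k r h

/-- A pair (time, position) that an event of scale `k` or `k - 1` names. -/
def mk (k s : ℕ) (q : ℤ) : Prop :=
  ∃ r h, (ev d w k r h ∨ ev d w (k - 1) r h) ∧ (q = h ∨ q = d.rp r h) ∧
    (s = r ∨ (s < r ∧ on d s h ∧ frz d (s + 1) r h) ∨ fst d (d.lp r h) h r s ∨
      fst d h (d.rp r h) r s)

/-- The token of `v` at time `s`, if solid, ends at an earlier visit of the segment. -/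
def cov (k ρ : ℕ) (u : ℤ) (t s : ℕ) (v : ℤ) : Prop :=
  ∀ t1, sol d w k s v t1 → t1 ∈ vis d ρ u t ∧ t1 < t

/-- All tokens between the segment and the position `q` on its right are covered. -/
def cin (k ρ : ℕ) (u : ℤ) (t s : ℕ) (q : ℤ) : Prop :=
  s ∈ vis d ρ u t ∧ d.rp s (hd d ρ u s) ≤ q ∧
    ∀ v, on d s v → hd d ρ u s < v → d.rp s v ≤ q → cov d w k ρ u t s v

/-- All tokens between the position `q` on the left and the segment are covered. -/
def cout (k ρ : ℕ) (u : ℤ) (t s : ℕ) (q : ℤ) : Prop :=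
  s ∈ vis d ρ u t ∧ q ≤ hd d ρ u s ∧
    ∀ v, on d s v → d.x s < v → v < hd d ρ u s → q ≤ v → cov d w k ρ u t s v

/-- The range `(a, b)` is a token whose holder carries at least `j` for it before time `r`. -/
def hi (j r : ℕ) (a b : ℤ) : Prop :=
  (d.L < a ∧ a < d.R ∧ d.rp r a = b ∧ w.sd r a ∧ j ≤ w.car r a) ∨
  (d.L < b ∧ b < d.R ∧ d.lp r b = a ∧ ¬ w.sd r b ∧ j ≤ w.car r b)

/-- The range `(a, b)` is shown at time `r` with value at least `j`. -/
def shown (j r : ℕ) (a b : ℤ) : Prop :=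
  r < d.m ∧ ((on d r a ∧ d.x r < a ∧ d.rp r a = b ∧ j ≤ w.val r a) ∨
    (on d r b ∧ b < d.x r ∧ d.lp r b = a ∧ j ≤ w.val r b))

/-- The holder of the range carries at least `j` and is touched or accessed before `ρ`. -/
def hx (j r ρ : ℕ) (a b : ℤ) : Prop :=
  (d.L < a ∧ a < d.R ∧ d.rp r a = b ∧ j ≤ w.car r a ∧ ¬ frz d r ρ a) ∨
  (d.L < b ∧ b < d.R ∧ d.lp r b = a ∧ j ≤ w.car r b ∧ ¬ frz d r ρ b)

/-- All pairs (time, key). -/
noncomputable def TK : Finset (ℕ × ℤ) := range d.m ×ˢ d.keys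

/-- The rises through `k`. -/
noncomputable def RI (k : ℕ) : Finset (ℕ × ℤ) := (TK d).filter fun p => rise d w k p.1 p.2

/-- The events of scale `k`. -/
noncomputable def EV (k : ℕ) : Finset (ℕ × ℤ) := (TK d).filter fun p => ev d w k p.1 p.2

/-- The named pairs of scale `k`. -/
noncomputable def MK (k : ℕ) : Finset (ℕ × ℤ) :=
  (range d.m ×ˢ Icc d.L d.R).filter fun p => mk d w k p.1 p.2

/-- The weight of all rises. -/
noncomputable def W : ℕ :=
  ∑ p ∈ ON d, ((w.val p.1 p.2 ^ 2 + w.val p.1 p.2) - (c0 d w p.1 p.2 ^ 2 + c0 d w p.1 p.2))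

/-- The links with a positive gap. -/
noncomputable def CL : Finset (ℕ × ℤ) :=
  (TK d).filter fun p => up d p.1 p.2 ∧ 1 ≤ gap d w p.1 p.2

/-- The size of the demand of a low token. -/
noncomputable def dm (t : ℕ) (v : ℤ) : ℕ :=
  g0 d w t v + min (g0 d w t v) 1 - w.val t (mate d t v)

/-- The demands of the right tokens. -/
noncomputable def DR : ℕ :=
  ∑ p ∈ (TK d).filter fun p => lo d w p.1 p.2 ∧ d.x p.1 < p.2, dm d w p.1 p.2

/-- The demands of the left tokens. -/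
noncomputable def DL : ℕ :=
  ∑ p ∈ (TK d).filter fun p => lo d w p.1 p.2 ∧ p.2 < d.x p.1, dm d w p.1 p.2

/-- The number of touches whose segment ends at `(t, v)`. -/
noncomputable def len (t : ℕ) (v : ℤ) : ℕ :=
  #((ON d).filter fun p => seg d w p.1 p.2 t ∧ hd d p.1 p.2 t = v)

/-- The ends of the demands of scale `k` with at most `θ` visits. -/
noncomputable def LG (k θ : ℕ) : Finset (ℕ × ℤ) :=
  (TK d).filter fun p => ∃ ρ u, hd d ρ u p.1 = p.2 ∧ dem d w k ρ u p.1 ∧ #(vis d ρ u p.1) ≤ θ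

end

/-! ### Elementary facts -/

-- deps: LP.LINK LP.STEP
/-- The two nodes of a link. -/
def S_MATE : Prop :=
  ∀ d : Run, d.OK → ∀ t,
    (∀ u, up d t u → low d t (lw d t u) u ∧ mate d t u = lw d t u) ∧
    (∀ p u, low d t p u → lw d t u = p ∧ mate d t p = u ∧ t < d.m ∧ on d t p ∧ ¬ up d t p ∧
      on d t u ∧
      (d.x t < p → p < u ∧ d.rp t p = u ∧ d.lp (t + 1) u = p ∧ d.rp (t + 1) u = d.rp t u ∧
        d.rp (t + 1) p = d.rp t u ∧ d.lp (t + 1) p = d.x t) ∧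
      (p < d.x t → u < p ∧ d.lp t p = u ∧ d.rp (t + 1) u = p ∧ d.lp (t + 1) u = d.lp t u ∧
        d.lp (t + 1) p = d.lp t u ∧ d.rp (t + 1) p = d.x t)) ∧
    (∀ h, t < d.m → on d t h → ¬ up d t h → (∀ u, ¬ low d t h u) →
      (d.x t < h → d.lp (t + 1) h = d.x t ∧ d.rp (t + 1) h = d.rp t h) ∧
      (h < d.x t → d.rp (t + 1) h = d.x t ∧ d.lp (t + 1) h = d.lp t h))

-- deps: LP.STEP
/-- Frozen nodes. -/
def S_KEEP : Prop :=
  ∀ (d : Run) (w : Dat), Sy d w → ∀ (a b : ℕ) (h : ℤ), a ≤ b → b ≤ d.m → d.L < h → h < d.R →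
    (frz d a b h ↔ clr d (d.lp a h) (d.rp a h) a b) ∧
    (frz d a b h → d.lp b h = d.lp a h ∧ d.rp b h = d.rp a h ∧ w.car b h = w.car a h ∧
      w.gp b h = w.gp a h ∧ (w.sd b h ↔ w.sd a h))

-- deps: MATE
/-- The right path before an access and the right spine after it. -/
def S_SPINE : Prop :=
  ∀ d : Run, d.OK → ∀ s < d.m,
    (∀ y v, on d s y → on d s v → d.x s < y → y < v → d.rp s y ≤ v) ∧
    (∀ y, on d s y → d.x s < y → d.rp s y < d.R → on d s (d.rp s y)) ∧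
    (∀ y v, on d s y → on d s v → d.x s < y → y < v →
      ∃ p, on d s p ∧ y ≤ p ∧ p < v ∧ d.rp s p = v) ∧
    (∀ z, on d s z → ¬ up d s z → d.x s < z → d.lp (s + 1) z = d.x s ∧
      d.rp s z ≤ d.rp (s + 1) z ∧
      (d.rp (s + 1) z < d.R → on d s (d.rp (s + 1) z) ∧ ¬ up d s (d.rp (s + 1) z)) ∧
      (∀ v, on d s v → z < v → v < d.rp (s + 1) z → low d s z v) ∧
      ∀ z', on d s z' → ¬ up d s z' → z < z' → d.rp (s + 1) z ≤ z') ∧
    ∀ y v, on d s y → d.x s < y → y ≤ v → v < d.R → d.lp (s + 1) v ≤ d.x s →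
      on d s v ∧ ¬ up d s v

-- deps: MATE
/-- Holders and segments. -/
def S_HD : Prop :=
  ∀ (d : Run) (w : Dat), Sy d w →
    (∀ s v r, r ≤ s → hd d s v r = v) ∧
    (∀ s v r r', s ≤ r → r ≤ r' → hd d r (hd d s v r) r' = hd d s v r') ∧
    (∀ s v t t', seg d w s v t → seg d w s v t' → t = t') ∧
    (∀ s v t, seg d w s v t → s ∈ vis d s v t ∧ t ∈ vis d s v t ∧ (lo d w s v → t = s)) ∧
    (∀ s v t r, seg d w s v t → r ∈ vis d s v t → seg d w r (hd d s v r) t) ∧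
    (∀ k s v t r, sol d w k s v t → r ∈ vis d s v t → sol d w k r (hd d s v r) t) ∧
    ∀ s v t r r', s ≤ r → r ≤ r' → frz d r r' (hd d s v r) → seg d w s v t →
      hd d s v r' = hd d s v r

-- deps: MATE
/-- A token that is not low passes its value to its next holder. -/
def S_PASS : Prop :=
  ∀ (d : Run) (w : Dat), Sy d w → ∀ s < d.m, ∀ v, on d s v → d.x s < v →
    (¬ lo d w s v → ∀ z, z = hd d s v (s + 1) → on d s z ∧ ¬ up d s z ∧ d.x s < z ∧ z ≤ v ∧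
      v < d.rp (s + 1) z ∧ w.car (s + 1) z = w.val s v ∧ w.sd (s + 1) z ∧
      (z = v ∨ low d s z v)) ∧
    (∀ u, low d s v u → (lo d w s v ↔ ¬ lo d w s u)) ∧
    (¬ up d s v → w.sd (s + 1) v ∧ ∀ k, k ≤ w.val s v →
      (∀ u, low d s v u → k ≤ w.val s u) → k ≤ w.car (s + 1) v)

-- deps: MATE KEEP SPINE HD PASS
/-- Consecutive visits. -/
def S_VIS : Prop :=
  ∀ (d : Run) (w : Dat), Sy d w → ∀ s v t c, seg d w s v t → c ∈ vis d s v t → s < c →
    ∃ b ∈ vis d s v t, b < c ∧ ∀ z, z = hd d s v c → hd d s v (b + 1) = z ∧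
      hd d b (hd d s v b) (b + 1) = z ∧ ¬ lo d w b (hd d s v b) ∧ d.x b < hd d s v b ∧
      frz d (b + 1) c z ∧ fst d (d.x b) (d.rp (b + 1) z) b c ∧ d.x c < z ∧
      d.rp c z = d.rp (b + 1) z

-- deps: KEEP SPINE PASS
/-- The next touch of a spine node that carries at least `k`. -/
def S_NEXT : Prop :=
  ∀ (d : Run) (w : Dat), Sy d w → ∀ k s r z, 1 ≤ k → r < d.m → on d s z → ¬ up d s z →
    d.x s < z → k ≤ w.car (s + 1) z → fst d (d.x s) (d.rp (s + 1) z) s r →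
    (on d r z ∧ d.x r < z ∧ k ≤ w.val r z ∧ frz d (s + 1) r z ∧ d.rp r z = d.rp (s + 1) z) ∨
    (mk d w k s z ∧ mk d w k s (d.rp (s + 1) z))

-- deps: MATE KEEP
def S_FROZ : Prop :=
  ∀ (d : Run) (w : Dat), Sy d w → ∀ j ρ u, 1 ≤ j → org d w j ρ u →
    j + 1 ≤ w.val ρ u ∨ ev d w j ρ u ∨ ev d w (j + 1) ρ u

/-! ### Before the release -/

-- deps:
def S_SHOW : Prop :=
  ∀ (d : Run) (w : Dat), Sy d w → ∀ j r ρ a b, 1 ≤ j → shown d w j r a b → fst d a b r ρ →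
    hi d w j r a b ∨ mk d w (j + 1) ρ b

-- deps: MATE KEEP SPINE FROZ SHOW
/-- Induction on `r`. -/
def S_DOWN : Prop :=
  ∀ (d : Run) (w : Dat), Sy d w → ∀ j ρ y, 1 ≤ j → ρ < d.m →
    (y = d.x ρ ∨ (on d ρ y ∧ d.x ρ < y)) → ∀ r a b, r ≤ ρ → a < d.x ρ → y < b →
    clr d a b r ρ → hi d w j r a b →
    (y ≠ d.x ρ ∧ j + 1 ≤ w.val ρ y) ∨ ∃ q, mk d w (j + 1) ρ q ∧ d.rp ρ y ≤ q ∧ q ≤ b

-- deps: MATE KEEP SPINE FROZ
/-- Induction on `ρ - r`. -/
def S_UP : Prop :=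
  ∀ (d : Run) (w : Dat), Sy d w → ∀ j ρ y, 1 ≤ j → ρ < d.m → on d ρ y →
    ∀ r a b, r ≤ ρ → a < d.x ρ → d.x ρ < b → b ≤ y → clr d a b r ρ →
    (hi d w j r a b ∨ hx d w j r ρ a b) →
    j + 1 ≤ w.val ρ y ∨ ∃ q, mk d w (j + 1) ρ q ∧ b ≤ q ∧ q ≤ y

-- deps: MATE KEEP SPINE SHOW DOWN UP
def S_REL : Prop :=
  ∀ (d : Run) (w : Dat), Sy d w → ∀ j ρ u, 1 ≤ j → org d w j ρ u → d.x ρ < u →
    (∀ y, on d ρ y → u < y →
      j + 1 ≤ w.val ρ y ∨ ∃ q, mk d w (j + 1) ρ q ∧ d.rp ρ u ≤ q ∧ q ≤ y) ∧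
    ∀ y, (y = d.x ρ ∨ (on d ρ y ∧ d.x ρ < y)) → y < u →
      (y ≠ d.x ρ ∧ j + 1 ≤ w.val ρ y) ∨ ∃ q, mk d w (j + 1) ρ q ∧ d.rp ρ y ≤ q ∧ q ≤ u

/-! ### After the release -/

-- deps: MATE HD
/-- A token that is not covered stays so. -/
def S_FWD : Prop :=
  ∀ (d : Run) (w : Dat), Sy d w → ∀ k ρ u t b v, b ∈ vis d ρ u t → b < t →
    ¬ cov d w k ρ u t b v → ¬ lo d w b v ∧ k ≤ w.val b v ∧
      ∀ c y, y = hd d b v (b + 1) → b < c → frz d (b + 1) c y → on d c y → ¬ cov d w k ρ u t c y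

-- deps: MATE KEEP SPINE HD PASS VIS NEXT FWD
/-- One step between consecutive visits, tokens on the right. -/
def S_SIN : Prop :=
  ∀ (d : Run) (w : Dat), Sy d w → ∀ k ρ u t c, 1 ≤ k → seg d w ρ u t → c ∈ vis d ρ u t → ρ < c →
    (∀ b ∈ vis d ρ u t, b < c → ∀ v, on d b v → hd d ρ u b < v →
      (∀ v', on d b v' → hd d ρ u b < v' → v' < v → cov d w k ρ u t b v') → k ≤ w.val b v) →
    (∃ s q, mk d w k s q ∧ cin d w k ρ u t s q) ∨
    ∀ v, on d c v → hd d ρ u c < v →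
      (∀ v', on d c v' → hd d ρ u c < v' → v' < v → cov d w k ρ u t c v') → k ≤ w.val c v

-- deps: MATE KEEP SPINE HD PASS VIS NEXT FWD
/-- One step between consecutive visits, tokens on the left. -/
def S_SOUT : Prop :=
  ∀ (d : Run) (w : Dat), Sy d w → ∀ k ρ u t c, 1 ≤ k → seg d w ρ u t → c ∈ vis d ρ u t → ρ < c →
    (∀ b ∈ vis d ρ u t, b < c → ∃ U, on d b U ∧ d.x b < U ∧ U < hd d ρ u b ∧
      ¬ cov d w k ρ u t b U ∧ ∀ v, on d b v → U < v → v < hd d ρ u b →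
        cov d w k ρ u t b v ∧ k ≤ w.val b v) →
    (∃ s q, mk d w k s q ∧ cout d w k ρ u t s q) ∨
    ∃ U, on d c U ∧ d.x c < U ∧ U < hd d ρ u c ∧ ¬ cov d w k ρ u t c U ∧
      ∀ v, on d c v → U < v → v < hd d ρ u c → cov d w k ρ u t c v ∧ k ≤ w.val c v

-- deps: MATE SPINE HD REL SIN
def S_CIN : Prop :=
  ∀ (d : Run) (w : Dat), Sy d w → ∀ k ρ u t, 2 ≤ k → dem d w k ρ u t → ¬ up d t (hd d ρ u t) →
    ∃ s q, mk d w k s q ∧ cin d w k ρ u t s q

-- deps: MATE SPINE HD REL SOUT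
def S_COUT : Prop :=
  ∀ (d : Run) (w : Dat), Sy d w → ∀ k ρ u t, 2 ≤ k → dem d w k ρ u t → up d t (hd d ρ u t) →
    ∃ s q, mk d w k s q ∧ cout d w k ρ u t s q

/-! ### Counting -/

-- deps: HD
def S_MULT : Prop :=
  ∀ (d : Run) (w : Dat), Sy d w → ∀ (k θ s : ℕ) (q : ℤ),
    #((TK d).filter fun p => ∃ ρ u, hd d ρ u p.1 = p.2 ∧ sol d w k ρ u p.1 ∧
      #(vis d ρ u p.1) ≤ θ ∧ cin d w k ρ u p.1 s q) ≤ θ ∧
    #((TK d).filter fun p => ∃ ρ u, hd d ρ u p.1 = p.2 ∧ sol d w k ρ u p.1 ∧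
      #(vis d ρ u p.1) ≤ θ ∧ cout d w k ρ u p.1 s q) ≤ θ

-- deps:
def S_MK : Prop :=
  ∀ (d : Run) (w : Dat), Sy d w → ∀ k,
    (∀ s q, s < d.m → mk d w k s q → (s, q) ∈ MK d w k) ∧
    #(MK d w k) ≤ 8 * (#(EV d w k) + #(EV d w (k - 1)))

-- deps: MATE LP.STEP
/-- Sums over the keys, link by link. -/
def S_PAIR : Prop :=
  ∀ d : Run, d.OK → ∀ (t : ℕ) (F G : ℤ → ℕ),
    (∀ h ∈ d.keys, ¬ up d t h → (∀ u, ¬ low d t h u) → F h ≤ G h) →
    (∀ p u, low d t p u → F p + F u ≤ G p + G u) → ∑ h ∈ d.keys, F h ≤ ∑ h ∈ d.keys, G h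

-- deps: MATE PAIR
def S_EV : Prop :=
  ∀ (d : Run) (w : Dat), Sy d w → ∀ k, 1 ≤ k → #(EV d w k) ≤ 2 * #(RI d w k)

-- deps:
def S_RS : Prop :=
  ∀ (d : Run) (w : Dat) (B : ℕ), ∑ k ∈ range B, 2 * k * #(RI d w k) ≤ W d w

-- deps: CIN COUT MULT MK
def S_LG : Prop :=
  ∀ (d : Run) (w : Dat), Sy d w → ∀ k θ, 2 ≤ k → #(LG d w k θ) ≤ 2 * θ * #(MK d w k)

-- deps: HD
def S_LEN : Prop :=
  ∀ (d : Run) (w : Dat), Sy d w → ∑ p ∈ TK d, len d w p.1 p.2 ≤ #(ON d) ∧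
    ∀ ρ u t, seg d w ρ u t → #(vis d ρ u t) ≤ len d w t (hd d ρ u t)

-- deps: MATE KEEP HD PASS
/-- Induction on the time, for the pending gap of every node. -/
def S_ORIG : Prop :=
  ∀ (d : Run) (w : Dat), Sy d w → ∀ t v, lo d w t v → d.x t < v → 1 ≤ g0 d w t v →
    ∃ ρ u, hd d ρ u t = v ∧ sol d w (g0 d w t v + 1) ρ u t ∧ org d w (g0 d w t v) ρ u

-- deps: MATE PAIR
def S_POT : Prop :=
  ∀ (d : Run) (w : Dat), Sy d w → #(CL d w) ≤ W d w + DR d w + DL d w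

-- deps: MK EV RS LG LEN ORIG
def S_DR : Prop :=
  ∀ (d : Run) (w : Dat), Sy d w → ∀ K, K * DR d w ≤ 2 * #(ON d) + 128 * K ^ 2 * W d w

-- deps: EMIR
def S_MIR : Prop :=
  ∀ (d : Run) (w : Dat), Sy d w → Sy d.mir w.mir ∧ W d.mir w.mir = W d w ∧
    #(ON d.mir) = #(ON d) ∧ DR d.mir w.mir = DL d w

-- deps: MATE LP.STEP
def S_EX : Prop :=
  ∀ (d : Run) (val : ℕ → ℤ → ℕ), d.OK → Tie d val → ∃ w : Dat, w.val = val ∧ Sy d w

-- deps: POT DR MIR
def S_T : Prop :=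
  ∀ (d : Run) (w : Dat), Sy d w → ∀ K, K * #(CL d w) ≤ 4 * #(ON d) + 257 * K ^ 2 * W d w

end Pool.Agent.P.MP_119182_lc.LT
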