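import Pool.Agent.P.MP_119182_lc.LT.Iface

/-! Step EX: the carried data exist. -/

set_option autoImplicit false

namespace Pool.Agent.P.MP_119182_lc.LT

open Finset
open scoped Classical
open NU (Run mr)
open LP (on up low ON)

namespace EXx

/-- The pending gap read from a state. -/
noncomputable def gq (d : Run) (val : ℕ → ℤ → ℕ) (t : ℕ) (s : ℤ → ℕ × ℕ × Prop) (h : ℤ) : ℕ :=
  if (d.x t < h ↔ (s h).2.2) ∧ (s h).1 ≤ val t h then (s h).2.1 else 0

/-- One step of the carried data. -/
noncomputable def nx (d : Run) (val : ℕ → ℤ → ℕ) (t : ℕ) (s : ℤ → ℕ × ℕ × Prop) (h : ℤ) :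
    ℕ × ℕ × Prop :=
  if h = d.x t then (0, 0, True)
  else if ¬ on d t h then s h
  else if up d t h then
    (max (val t (lw d t h)) (val t h), min (val t (lw d t h)) (val t h),
      (d.x t < h ↔ val t (lw d t h) ≤ val t h))
  else if ∃ u, low d t h u then
    (min (val t (lw d t (mate d t h))) (val t (mate d t h)),
      (if val t h ≤ val t (mate d t h) then gq d val t s h else gq d val t s (mate d t h)),
      d.x t < h)
  else (val t h, gq d val t s h, d.x t < h)

/-- The carried data at all times. -/
noncomputable def st (d : Run) (val : ℕ → ℤ → ℕ) : ℕ → ℤ → ℕ × ℕ × Prop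
  | 0 => fun _ => (0, 0, True)
  | t + 1 => nx d val t (st d val t)

/-- The data as a structure. -/
noncomputable def dat (d : Run) (val : ℕ → ℤ → ℕ) : Dat where
  val := val
  car := fun t h => (st d val t h).1
  gp := fun t h => (st d val t h).2.1
  sd := fun t h => (st d val t h).2.2

theorem g0_eq (d : Run) (val : ℕ → ℤ → ℕ) (t : ℕ) (h : ℤ) :
    g0 d (dat d val) t h = gq d val t (st d val t) h := by
  unfold g0 gq
  by_cases hc : (d.x t < h ↔ (st d val t h).2.2) ∧ (st d val t h).1 ≤ val t h
  · rw [if_pos hc, if_pos (show cont d (dat d val) t h ∧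
      (dat d val).car t h ≤ (dat d val).val t h from hc)]
    rfl
  · rw [if_neg hc, if_neg (show ¬ (cont d (dat d val) t h ∧
      (dat d val).car t h ≤ (dat d val).val t h) from hc)]

theorem st_succ (d : Run) (val : ℕ → ℤ → ℕ) (t : ℕ) (h : ℤ) :
    st d val (t + 1) h = nx d val t (st d val t) h := rfl

end EXx

open EXx in
theorem p_EX (hMATE : S_MATE) (hSTEP : LP.S_STEP) : S_EX := by
  intro d val hd hT
  have _h := hSTEP
  refine ⟨dat d val, rfl, hd, hT, fun h => ⟨rfl, rfl⟩, ?_, ?_, ?_, ?_, ?_⟩
  · intro t _
    have e : st d val (t + 1) (d.x t) = (0, 0, True) := by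
      rw [st_succ]; unfold nx; rw [if_pos rfl]
    constructor
    · show (st d val (t + 1) (d.x t)).1 = 0
      rw [e]
    · show (st d val (t + 1) (d.x t)).2.1 = 0
      rw [e]
  · intro t _ h h1 h2
    have e : st d val (t + 1) h = st d val t h := by
      rw [st_succ]; unfold nx; rw [if_neg h1, if_pos h2]
    refine ⟨?_, ?_, ?_⟩
    · show (st d val (t + 1) h).1 = (st d val t h).1
      rw [e]
    · show (st d val (t + 1) h).2.1 = (st d val t h).2.1
      rw [e]
    · show (st d val (t + 1) h).2.2 ↔ (st d val t h).2.2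
      rw [e]
  · intro t u hu
    have ho : on d t u := hu.2.1
    have e : st d val (t + 1) u =
        (max (val t (lw d t u)) (val t u), min (val t (lw d t u)) (val t u),
          (d.x t < u ↔ val t (lw d t u) ≤ val t u)) := by
      rw [st_succ]; unfold nx
      rw [if_neg ho.2.2.1, if_neg (not_not.mpr ho), if_pos hu]
    refine ⟨?_, ?_, ?_⟩
    · show (st d val (t + 1) u).1 = max (val t (lw d t u)) (val t u)
      rw [e]
    · show (st d val (t + 1) u).2.1 = min (val t (lw d t u)) (val t u)
      rw [e]
    · show (st d val (t + 1) u).2.2 ↔ (d.x t < u ↔ val t (lw d t u) ≤ val t u)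
      rw [e]
  · intro t p u hl
    obtain ⟨-, hm, -, ho, hn, -⟩ := (hMATE d hd t).2.1 p u hl
    have e : st d val (t + 1) p =
        (min (val t (lw d t u)) (val t u),
          (if val t p ≤ val t u then gq d val t (st d val t) p else gq d val t (st d val t) u),
          d.x t < p) := by
      rw [st_succ]; unfold nx
      rw [if_neg ho.2.2.1, if_neg (not_not.mpr ho), if_neg hn, if_pos ⟨u, hl⟩, hm]
    refine ⟨?_, ?_, ?_⟩
    · show (st d val (t + 1) p).1 = min (val t (lw d t u)) (val t u)
      rw [e]
    · rw [g0_eq, g0_eq]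
      show (st d val (t + 1) p).2.1 =
        (if val t p ≤ val t u then gq d val t (st d val t) p else gq d val t (st d val t) u)
      rw [e]
    · show (st d val (t + 1) p).2.2 ↔ d.x t < p
      rw [e]
  · intro t _ h ho hn hl
    have e : st d val (t + 1) h = (val t h, gq d val t (st d val t) h, d.x t < h) := by
      rw [st_succ]; unfold nx
      rw [if_neg ho.2.2.1, if_neg (not_not.mpr ho), if_neg hn, if_neg (not_exists.mpr hl)]
    refine ⟨?_, ?_, ?_⟩
    · show (st d val (t + 1) h).1 = val t h
      rw [e]
    · rw [g0_eq]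
      show (st d val (t + 1) h).2.1 = gq d val t (st d val t) h
      rw [e]
    · show (st d val (t + 1) h).2.2 ↔ d.x t < h
      rw [e]

end Pool.Agent.P.MP_119182_lc.LT
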