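import Pool.Agent.P.MP_119182_lc.LT.Iface

/-! Step HD. -/

set_option autoImplicit false

namespace Pool.Agent.P.MP_119182_lc.LT

open Finset
open scoped Classical
open NU (Run mr)
open LP (on up low ON)

namespace HDx

variable (d : Run)

lemma h1 (s : ℕ) (v : ℤ) : ∀ r, r ≤ s → hd d s v r = v
  | 0, _ => rfl
  | r + 1, h => by
    rw [hd, if_neg (fun e => by omega), h1 s v r (by omega)]

lemma h2 (s : ℕ) (v : ℤ) (r r' : ℕ) (h : s ≤ r) (h' : r ≤ r') :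
    hd d r (hd d s v r) r' = hd d s v r' := by
  induction r', h' using Nat.le_induction with
  | base => exact h1 d r _ r le_rfl
  | succ n hn ih =>
    rw [hd, ih, hd.eq_2 d s v n]
    simp only [hn, h.trans hn, true_and]

lemma mv {s : ℕ} {v : ℤ} {t r : ℕ} : r ∈ vis d s v t ↔ (s ≤ r ∧ r ≤ t) ∧ on d r (hd d s v r) := by
  rw [vis, mem_filter, mem_Icc]

lemma h5 (w : Dat) (s : ℕ) (v : ℤ) (t r : ℕ) (h : seg d w s v t) (hr : r ∈ vis d s v t) :
    seg d w r (hd d s v r) t := by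
  obtain ⟨⟨a, b⟩, c⟩ := (mv d).1 hr
  obtain ⟨-, k2, -, k4, k5, k6⟩ := h
  refine ⟨b, k2, c, fun q q1 q2 => ?_, fun q q1 q2 => ?_, ?_⟩
  · rw [h2 d s v r q a q1]; exact k4 q (a.trans q1) q2
  · rw [h2 d s v r q a q1]; exact k5 q (a.trans q1) q2
  · rw [h2 d s v r t a b]; exact k6

end HDx

theorem p_HD (hMATE : S_MATE) : S_HD := by
  intro d w hs
  refine ⟨HDx.h1 d, HDx.h2 d, fun s v t t' h h' => ?_, fun s v t h => ?_, HDx.h5 d w,
    fun k s v t r h hr => ⟨HDx.h5 d w s v t r h.1 hr, fun q hq => ?_⟩,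
    fun s v t r r' a b hf _ => ?_⟩
  · rcases lt_trichotomy t t' with l | l | l
    · exact absurd h.2.2.2.2.2 (h'.2.2.2.2.1 t h.1 l)
    · exact l
    · exact absurd h'.2.2.2.2.2 (h.2.2.2.2.1 t' h'.1 l)
  · obtain ⟨k1, -, k3, -, k5, k6⟩ := h
    refine ⟨(HDx.mv d).2 ⟨⟨le_rfl, k1⟩, by rwa [HDx.h1 d s v s le_rfl]⟩,
      (HDx.mv d).2 ⟨⟨k1, le_rfl⟩, ?_⟩, fun hl => ?_⟩
    · rcases k6 with ⟨e, -⟩ | ⟨u, e, -⟩
      · exact e.2.1
      · exact ((hMATE d hs.ok t).2.1 _ u e).2.2.2.1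
    · by_contra hn
      have := k5 s le_rfl (by omega)
      rw [HDx.h1 d s v s le_rfl] at this
      exact this hl
  · obtain ⟨⟨a, -⟩, -⟩ := (HDx.mv d).1 hr
    obtain ⟨⟨a', b'⟩, c'⟩ := (HDx.mv d).1 hq
    rw [HDx.h2 d s v r q a a'] at c' ⊢
    exact h.2 q ((HDx.mv d).2 ⟨⟨a.trans a', b'⟩, c'⟩)
  · induction r', b using Nat.le_induction with
    | base => rfl
    | succ n hn ih =>
      have e := ih fun T t1 t2 => hf T t1 (by omega)
      rw [hd, e, if_neg fun u => (hf n hn (by omega)).2 u.2.2.1]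

end Pool.Agent.P.MP_119182_lc.LT
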