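import Pool.Agent.P.MP_119182_lc.LT.Iface

set_option autoImplicit false

namespace Pool.Agent.P.MP_119182_lc.LT

open Finset
open scoped Classical
open NU (Run mr)
open LP (on up low ON)

namespace KEEPx

theorem frz_mono {d : Run} {a b b' : ℕ} {h : ℤ} (H : frz d a b h) (hb : b' ≤ b) : frz d a b' h :=
  fun T h1 h2 => H T h1 (h2.trans_le hb)

theorem same {d : Run} {w : Dat} (S : Sy d w) {a : ℕ} {h : ℤ} (hL : d.L < h) (hR : h < d.R) :
    ∀ b, a ≤ b → b ≤ d.m → frz d a b h → d.lp b h = d.lp a h ∧ d.rp b h = d.rp a h ∧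
      w.car b h = w.car a h ∧ w.gp b h = w.gp a h ∧ (w.sd b h ↔ w.sd a h) := by
  intro b hab
  induction b, hab using Nat.le_induction with
  | base => exact fun _ _ => ⟨rfl, rfl, rfl, rfl, Iff.rfl⟩
  | succ b hab ih =>
    intro hb H
    obtain ⟨e1, e2, e3, e4, e5⟩ := ih (by omega) (frz_mono H (by omega))
    obtain ⟨h1, h2⟩ := H b hab (by omega)
    obtain ⟨f1, f2⟩ := (S.ok.step b (by omega)).off h hL hR h1.symm
      (fun h3 => h2 ⟨hL, hR, h1.symm, h3.1, h3.2⟩)
    obtain ⟨g1, g2, g3⟩ := S.off b (by omega) h h1.symm h2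
    exact ⟨f1.trans e1, f2.trans e2, g1.trans e3, g2.trans e4, g3.trans e5⟩

end KEEPx

open KEEPx in
theorem p_KEEP (hSTEP : LP.S_STEP) : S_KEEP := by
  intro d w S a b h hab hb hL hR
  refine ⟨⟨fun H T h1 h2 h3 => ?_, fun H => ?_⟩, same S hL hR b hab hb⟩
  · obtain ⟨e1, e2, -⟩ := same S hL hR T h1 (by omega) (frz_mono H h2.le)
    obtain ⟨g1, g2⟩ := H T h1 h2
    exact g2 ⟨hL, hR, g1.symm, e1 ▸ h3.1, e2 ▸ h3.2⟩
  · obtain ⟨-, b1, b2, -⟩ := (S.ok.tree a (by omega)).bnd h hL hR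
    induction b, hab using Nat.le_induction with
    | base => exact fun T h1 h2 => absurd h2 (by omega)
    | succ b hab ih =>
      have H0 := ih (by omega) fun T h1 h2 => H T h1 (by omega)
      obtain ⟨e1, e2, -⟩ := same S hL hR b hab (by omega) H0
      intro T h1 h2
      rcases (show T < b ∨ T = b by omega) with h3 | rfl
      · exact H0 T h1 h3
      · have := H T h1 h2
        refine ⟨fun e => this ⟨by omega, by omega⟩, fun o => this ⟨e1 ▸ o.2.2.2.1, e2 ▸ o.2.2.2.2⟩⟩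

end Pool.Agent.P.MP_119182_lc.LT
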