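import Pool.Agent.P.MP_119182_lc.LT.Iface

set_option autoImplicit false

namespace Pool.Agent.P.MP_119182_lc.LT

open Finset
open scoped Classical
open NU (Run mr)
open LP (on up low ON)

theorem p_LEN (hHD : S_HD) : S_LEN := by
  intro d w hs
  obtain ⟨_, h2, h3, _, h5, _, _⟩ := hHD d w hs
  refine ⟨?_, ?_⟩
  · unfold len
    rw [← card_biUnion]
    · exact card_le_card (biUnion_subset.2 fun p _ => filter_subset _ _)
    · intro p _ q _ hpq
      simp only [Function.onFun]
      rw [disjoint_left]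
      intro z hz hz'
      obtain ⟨_, a1, a2⟩ := mem_filter.1 hz
      obtain ⟨_, b1, b2⟩ := mem_filter.1 hz'
      have e := h3 _ _ _ _ a1 b1
      apply hpq
      ext
      · exact e
      · rw [← a2, ← b2, e]
  · intro ρ u t hseg
    unfold len
    refine card_le_card_of_injOn (fun r => (r, hd d ρ u r)) ?_ ?_
    · intro r hr
      have hr' : r ∈ vis d ρ u t := by simpa using hr
      have hr2 := hr'
      unfold vis at hr2
      obtain ⟨hI, hon⟩ := mem_filter.1 hr2
      obtain ⟨i1, i2⟩ := mem_Icc.1 hI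
      have hlt : r < d.m := lt_of_le_of_lt i2 hseg.2.1
      simp only [coe_filter, Set.mem_ofPred_eq]
      refine ⟨?_, h5 _ _ _ _ hseg hr', h2 _ _ _ _ i1 i2⟩
      unfold ON
      refine mem_filter.2 ⟨mem_product.2 ⟨mem_range.2 hlt, ?_⟩, hon⟩
      exact mem_Ioo.2 ⟨hon.1, hon.2.1⟩
    · intro r _ r' _ h
      exact congrArg Prod.fst h

end Pool.Agent.P.MP_119182_lc.LT
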