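import Pool.Agent.P.MP_119182_lc.LT.Iface

set_option autoImplicit false

namespace Pool.Agent.P.MP_119182_lc.LT

open Finset
open scoped Classical
open NU (Run mr)
open LP (on up low ON)

theorem p_MATE (hLINK : LP.S_LINK) (hSTEP : LP.S_STEP) : S_MATE := by
  intro d hd t
  refine ⟨?_, ?_, ?_⟩
  · intro u hu
    obtain ⟨⟨h1, h2⟩, h3, -⟩ := hLINK d hd t u hu
    refine ⟨⟨hu, ?_⟩, ?_⟩
    · by_cases hx : d.x t < u
      · left
        have e : lw d t u = d.lp (t + 1) u := by unfold lw; rw [if_pos hx]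
        rw [e]
        exact ⟨by omega, rfl⟩
      · right
        have e : lw d t u = d.rp (t + 1) u := by unfold lw; rw [if_neg hx]
        rw [e]
        exact ⟨by omega, rfl⟩
    · unfold mate
      rw [if_pos hu]
  · intro p u hl
    obtain ⟨hu, hc⟩ := hl
    obtain ⟨⟨h1, h2⟩, h3, h4, h5, -⟩ := hLINK d hd t u hu
    rcases hc with ⟨hp, e⟩ | ⟨hp, e⟩
    · have hx : d.x t < u := by omega
      obtain ⟨a1, a2, a3, a4, a5, -⟩ := h4 hx
      rw [e] at a1 a3 a4 a5 h1
      have hn : ¬ up d t p := fun h => h.2.2.1 a4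
      refine ⟨?_, ?_, hu.1, a1, hn, hu.2.1, ?_, ?_⟩
      · unfold lw
        rw [if_pos hx, e]
      · unfold mate
        rw [if_neg hn, if_pos hp, a3]
      · intro _
        exact ⟨h1, a3, e, a2, a5, a4⟩
      · intro h
        omega
    · have hx : u < d.x t := by omega
      obtain ⟨a1, a2, a3, a4, a5, -⟩ := h5 hx
      rw [e] at a1 a3 a4 a5 h2
      have hn : ¬ up d t p := fun h => h.2.2.2 a4
      refine ⟨?_, ?_, hu.1, a1, hn, hu.2.1, ?_, ?_⟩
      · unfold lw
        rw [if_neg (by omega), e]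
      · unfold mate
        rw [if_neg hn, if_neg (by omega), a3]
      · intro h
        omega
      · intro _
        exact ⟨h2, a3, e, a2, a5, a4⟩
  · intro h ht ho hn hl
    obtain ⟨-, s2, s3, -⟩ := hSTEP d hd t ht h ho.1 ho.2.1 ho.2.2.1
    refine ⟨fun hx => ?_, fun hx => ?_⟩
    · obtain ⟨b1, b2⟩ := s2 ho hn hx
      rcases b2 with b2 | ⟨b2, -⟩
      · exact ⟨b1, b2⟩
      · exact absurd b2 (hl _)
    · obtain ⟨b1, b2⟩ := s3 ho hn hx
      rcases b2 with b2 | ⟨b2, -⟩
      · exact ⟨b1, b2⟩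
      · exact absurd b2 (hl _)

end Pool.Agent.P.MP_119182_lc.LT
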