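import Pool.Agent.P.MP_119182_lc.LT.Iface

/-! A token that is not low passes its value to its next holder. -/

set_option autoImplicit false

namespace Pool.Agent.P.MP_119182_lc.LT

open Finset
open scoped Classical
open NU (Run mr)
open LP (on up low ON)

namespace PASSx

theorem hd_le (d : Run) (s : ℕ) (v : ℤ) : ∀ r, r ≤ s → hd d s v r = v
  | 0, _ => rfl
  | r + 1, h => by
    have h1 : ¬ s ≤ r := by omega
    have h2 := hd_le d s v r (by omega)
    simp only [hd, h1, false_and, if_false, h2]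

theorem hd_succ (d : Run) (s : ℕ) (v : ℤ) :
    hd d s v (s + 1) = if up d s v then lw d s v else v := by
  simp only [hd, hd_le d s v s le_rfl, le_refl, true_and]

end PASSx

theorem p_PASS (hMATE : S_MATE) : S_PASS := by
  intro d w hS s hs v hv hx
  obtain ⟨M1, M2, -⟩ := hMATE d hS.ok s
  have third : ¬ up d s v → w.sd (s + 1) v ∧ (w.car (s + 1) v = w.val s v ∨
      ∃ u, low d s v u ∧ w.car (s + 1) v = min (w.val s v) (w.val s u)) := by
    intro hu
    by_cases hl : ∃ u, low d s v u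
    · obtain ⟨u, hl⟩ := hl
      obtain ⟨c1, -, c3⟩ := hS.lwr s v u hl
      refine ⟨c3.2 hx, Or.inr ⟨u, hl, ?_⟩⟩
      rw [c1, gap, (M2 v u hl).1]
    · obtain ⟨c1, -, c3⟩ := hS.kep s hs v hv hu (fun u h => hl ⟨u, h⟩)
      exact ⟨c3.2 hx, Or.inl c1⟩
  refine ⟨?_, ?_, ?_⟩
  · intro hlo z hz
    rw [PASSx.hd_succ] at hz
    by_cases hu : up d s v
    · rw [if_pos hu] at hz
      have hl : low d s z v := hz ▸ (M1 v hu).1
      obtain ⟨e1, -, -, oz, nz, -, hR, hL⟩ := M2 z v hl
      have hxz : d.x s < z := by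
        rcases lt_trichotomy (d.x s) z with h | h | h
        · exact h
        · exact absurd h.symm oz.2.2.1
        · have := (hL h).1
          omega
      obtain ⟨r1, -, -, -, r5, -⟩ := hR hxz
      obtain ⟨c1, -, c3⟩ := hS.lwr s z v hl
      have hb := (hS.ok.tree s hs.le).bnd v hv.1 hv.2.1
      have hlt : ¬ w.val s (lw d s v) ≤ w.val s v := fun h => hlo (Or.inl ⟨hu, h⟩)
      refine ⟨oz, nz, hxz, r1.le, by rw [r5]; exact hb.2.2.1, ?_, c3.2 hxz, Or.inr hl⟩
      rw [c1, gap]
      omega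
    · rw [if_neg hu] at hz
      subst hz
      obtain ⟨t1, t2⟩ := third hu
      have hb := (hS.ok.tree (s + 1) hs).bnd z hv.1 hv.2.1
      refine ⟨hv, hu, hx, le_rfl, hb.2.2.1, ?_, t1, Or.inl rfl⟩
      rcases t2 with t2 | ⟨u, hl, t2⟩
      · exact t2
      · have : ¬ w.val s u < w.val s z := fun h => hlo (Or.inr ⟨u, hl, h⟩)
        omega
  · intro u hl
    obtain ⟨e1, e2, -, -, nv, -⟩ := M2 v u hl
    have a1 : lo d w s v ↔ w.val s u < w.val s v := by
      constructor
      · rintro (⟨h, -⟩ | ⟨u', hl', h⟩)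
        · exact absurd h nv
        · have := (M2 v u' hl').2.1
          rw [e2] at this
          rw [this]
          exact h
      · exact fun h => Or.inr ⟨u, hl, h⟩
    have a2 : lo d w s u ↔ w.val s v ≤ w.val s u := by
      constructor
      · rintro (⟨-, h⟩ | ⟨u', hl', -⟩)
        · rwa [e1] at h
        · exact absurd hl.1 (M2 u u' hl').2.2.2.2.1
      · exact fun h => Or.inl ⟨hl.1, by rwa [e1]⟩
    rw [a1, a2]
    omega
  · intro hu
    obtain ⟨t1, t2⟩ := third hu
    refine ⟨t1, fun k hk hk' => ?_⟩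
    rcases t2 with t2 | ⟨u, hl, t2⟩
    · omega
    · have := hk' u hl
      omega

end Pool.Agent.P.MP_119182_lc.LT
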