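import Pool.Agent.P.MP_119182_lc.LT.Iface

/-! Step SPINE. -/

set_option autoImplicit false

namespace Pool.Agent.P.MP_119182_lc.LT

open Finset
open scoped Classical
open NU (Run mr)
open LP (on up low ON)

theorem p_SPINE (hMATE : S_MATE) : S_SPINE := by
  intro d hd s hs
  have T := hd.tree s hs.le
  obtain ⟨M1, M2, M3⟩ := hMATE d hd s
  have s1 : ∀ y v, on d s y → on d s v → d.x s < y → y < v → d.rp s y ≤ v := by
    intro y v oy ov xy yv
    by_contra hn
    have a1 := (T.lamR y v oy.1 oy.2.1 yv (by omega)).1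
    have a2 := ov.2.2.2.1
    omega
  have s2 : ∀ y, on d s y → d.x s < y → d.rp s y < d.R → on d s (d.rp s y) := by
    intro y oy xy hr
    have a1 := (T.bnd y oy.1 oy.2.1).2.2.1
    have a2 := oy.1
    have a3 := T.ancR y oy.1 oy.2.1 hr
    have a4 := oy.2.2.2.1
    have a5 := (T.bnd (d.rp s y) (by omega) hr).2.2.1
    exact ⟨by omega, hr, by omega, by omega, by omega⟩
  have lw1 : ∀ v, up d s v → d.x s < v → ∃ p, low d s p v ∧ d.x s < p ∧ p < v ∧ on d s p ∧
      ¬ up d s p ∧ d.rp s p = v ∧ d.lp (s + 1) v = p := by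
    intro v hv xv
    have a := (M1 v hv).1
    obtain ⟨-, -, -, op, np, -, b1, b2⟩ := M2 _ _ a
    have xp : d.x s < lw d s v := by
      rcases a.2 with k | k
      · exact k.1
      · have := (b2 k.1).1
        have := k.1
        omega
    obtain ⟨c1, c2, c3, -⟩ := b1 xp
    exact ⟨_, a, xp, c1, op, np, c2, c3⟩
  have uq : ∀ y p, on d s y → on d s p → d.x s < y → d.x s < p → d.rp s y = d.rp s p → y = p := by
    intro y p oy op xy xp e
    have a1 := (T.bnd y oy.1 oy.2.1).2.2.1
    have a2 := (T.bnd p op.1 op.2.1).2.2.1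
    rcases lt_trichotomy y p with l | l | l
    · have := s1 y p oy op xy l
      omega
    · exact l
    · have := s1 p y op oy xp l
      omega
  refine ⟨s1, s2, fun y v oy ov xy yv => ?_, fun z oz nz xz => ?_, fun y v oy xy yv vR hl => ?_⟩
  · obtain ⟨p, ⟨op, l1, l2⟩, hm⟩ := Int.exists_greatest_of_bdd
      (P := fun p => on d s p ∧ y ≤ p ∧ p < v) ⟨v, fun z h => h.2.2.le⟩ ⟨y, oy, le_rfl, yv⟩
    refine ⟨p, op, l1, l2, ?_⟩
    have a1 := s1 p v op ov (by omega) l2
    have a2 := (T.bnd p op.1 op.2.1).2.2.1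
    have a3 := ov.2.1
    by_contra hn
    have := hm _ ⟨s2 p op (by omega) (by omega), by omega, by omega⟩
    omega
  · have z1 := (T.bnd z oz.1 oz.2.1).2.2.1
    by_cases hl : ∃ u, low d s z u
    · obtain ⟨u, hl⟩ := hl
      obtain ⟨-, -, -, -, -, ou, b1, -⟩ := M2 _ _ hl
      obtain ⟨c1, c2, -, -, c5, c6⟩ := b1 xz
      have u1 := (T.bnd u ou.1 ou.2.1).2.2.1
      rw [c5]
      refine ⟨c6, by omega, fun hr => ⟨s2 u ou (by omega) hr, fun k => ?_⟩,
        fun v ov l1 l2 => ?_, fun z' oz' nz' l => ?_⟩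
      · obtain ⟨p, -, xp, -, op, np, e, -⟩ := lw1 _ k (by omega)
        exact np (uq u p ou op (by omega) xp e.symm ▸ hl.1)
      · have a1 := s1 z v oz ov xz l1
        rcases (show u = v ∨ u < v by omega) with e | e
        · exact e ▸ hl
        · have := s1 u v ou ov (by omega) e
          omega
      · have a1 := s1 z z' oz oz' xz l
        have a2 : u ≠ z' := fun e => nz' (e ▸ hl.1)
        exact s1 u z' ou oz' (by omega) (by omega)
    · obtain ⟨c1, c2⟩ := (M3 z hs oz nz fun u k => hl ⟨u, k⟩).1 xz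
      rw [c2]
      refine ⟨c1, le_rfl, fun hr => ⟨s2 z oz xz hr, fun k => ?_⟩,
        fun v ov l1 l2 => ?_, fun z' oz' _ l => s1 z z' oz oz' xz l⟩
      · obtain ⟨p, lp, xp, -, op, -, e, -⟩ := lw1 _ k (by omega)
        obtain rfl := uq z p oz op xz xp e.symm
        exact hl ⟨_, lp⟩
      · have := s1 z v oz ov xz l1
        omega
  · have a0 := oy.1
    have a1 := (T.bnd v (by omega) vR).2.2.1
    refine ⟨?_, fun k => ?_⟩
    · by_contra hn
      have a2 : ¬ (d.lp s v < d.x s ∧ d.x s < d.rp s v) := fun k =>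
        hn ⟨by omega, vR, by omega, k.1, k.2⟩
      have a3 := ((hd.step s hs).off v (by omega) vR (by omega) a2).1
      rcases yv.eq_or_lt with e | e
      · exact hn (e ▸ oy)
      · have a4 := (T.lamL v y (by omega) vR (by omega) e).1
        have a5 := oy.2.2.2.1
        omega
    · obtain ⟨p, -, xp, -, -, -, -, e⟩ := lw1 v k (by omega)
      omega

end Pool.Agent.P.MP_119182_lc.LT
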