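import Pool.Agent.P.MP_119182_lc.LT.Iface

/-! Consecutive visits of a segment. -/

set_option autoImplicit false

namespace Pool.Agent.P.MP_119182_lc.LT

open Finset
open scoped Classical
open NU (Run mr)
open LP (on up low ON)

theorem p_VIS (hMATE : S_MATE) (hKEEP : S_KEEP) (hSPINE : S_SPINE) (hHD : S_HD)
    (hPASS : S_PASS) : S_VIS := by
  intro d w hS s v t c hseg hc hsc
  have _ := hMATE
  obtain ⟨-, h2, -, h4, -⟩ := hHD d w hS
  have hs := (h4 s v t hseg).1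
  obtain ⟨hst, htm, -, hx, hlo, -⟩ := hseg
  have hne : ((vis d s v t).filter fun r => r < c).Nonempty := ⟨s, mem_filter.2 ⟨hs, hsc⟩⟩
  obtain ⟨b, hb, hmax⟩ := exists_max_image _ id hne
  obtain ⟨hbv, hbc⟩ := mem_filter.1 hb
  obtain ⟨hbI, hbon⟩ := mem_filter.1 hbv
  obtain ⟨hcI, hcon⟩ := mem_filter.1 hc
  obtain ⟨hsb, -⟩ := mem_Icc.1 hbI
  obtain ⟨-, hct⟩ := mem_Icc.1 hcI
  have hoff : ∀ r, b < r → r < c → ¬ on d r (hd d s v r) := fun r h1 h2 h3 => by
    have := hmax r (mem_filter.2 ⟨mem_filter.2 ⟨mem_Icc.2 ⟨by omega, by omega⟩, h3⟩, h2⟩)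
    simp only [id] at this
    omega
  have hconst : ∀ r, b + 1 ≤ r → r ≤ c → hd d s v r = hd d s v (b + 1) := by
    intro r h1
    induction r, h1 using Nat.le_induction with
    | base => exact fun _ => rfl
    | succ r h1 ih =>
      intro h3
      rw [← ih (by omega), hd, if_neg fun h => hoff r (by omega) (by omega) h.2.2.1]
  refine ⟨b, hbv, hbc, fun z hz => ?_⟩
  have e1 : hd d s v (b + 1) = z := by rw [hz, hconst c hbc le_rfl]
  have e2 : hd d b (hd d s v b) (b + 1) = z := by rw [h2 s v b (b + 1) hsb (by omega), e1]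
  have hnl := hlo b hsb (by omega)
  have hxb := (hx b hsb (by omega)).2 hbon
  have hfz : frz d (b + 1) c z := fun T h1 h3 => by
    have e : hd d s v T = z := by rw [hconst T h1 h3.le, e1]
    exact ⟨e ▸ (hx T (by omega) (by omega)).1, e ▸ hoff T h1 h3⟩
  obtain ⟨zon, znu, zx, -⟩ := (hPASS d w hS b (by omega) _ hbon hxb).1 hnl z e2.symm
  have hlp := ((hSPINE d hS.ok b (by omega)).2.2.2.1 z zon znu zx).1
  obtain ⟨k1, k2⟩ := hKEEP d w hS (b + 1) c z hbc (by omega) zon.1 zon.2.1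
  obtain ⟨k3, k4, -⟩ := k2 hfz
  have hcl := k1.1 hfz
  have hzc := (hx c hsc.le hct).2 hcon
  rw [← hz] at hcon hzc
  obtain ⟨-, -, -, c1, c2⟩ := hcon
  rw [hlp] at hcl k3
  exact ⟨e1, e2, hnl, hxb, hfz, ⟨hbc, k3 ▸ c1, k4 ▸ c2, hcl⟩, hzc, k4⟩

end Pool.Agent.P.MP_119182_lc.LT
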